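import Pool.Agent.H12.KTH.Stmts
import Pool.Agent.H32.Dense.Times

/-!
# KTH, row CGP: the coefficients are neither large nor small
-/

set_option autoImplicit false

namespace Pool.KTH

open Finset Real
open Pool.Agent.H49.Ent Pool.Agent.H32.Dense

theorem gp_nonneg (J : ℕ) (x y : ℤ) : 0 ≤ gp J x y := by
  unfold gp
  apply Real.log_nonneg
  have h : (0 : ℝ) < max 1 |(x : ℝ) - y| := lt_of_lt_of_le one_pos (le_max_left _ _)
  have : (0 : ℝ) ≤ 2 ^ J / max 1 |(x : ℝ) - y| := by positivity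
  linarith

theorem ell_le_gp (J : ℕ) (x y : ℤ) : ell (2 ^ J) x y ≤ gp J x y := by
  unfold ell gp
  have h : (0 : ℝ) < max 1 |(x : ℝ) - y| := lt_of_lt_of_le one_pos (le_max_left _ _)
  have hM : (0 : ℝ) < 2 ^ J := by positivity
  rw [max_comm]
  push_cast
  exact Real.log_le_log (by positivity) (by linarith)

theorem one_le_er {J : ℕ} {e : ℝ} (he : 0 ≤ e) : 1 ≤ er J e := by
  unfold er
  have : 0 ≤ Real.log ((J : ℝ) + 2) := Real.log_nonneg (by
    have : (0 : ℝ) ≤ J := Nat.cast_nonneg J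
    linarith)
  linarith

variable {d J : ℕ}

theorem Cf.eg_nonneg (F : Cf d J) (x y : F.Ω → ℤ) : 0 ≤ F.eg x y :=
  Ex_nonneg F.hq (fun _ _ => gp_nonneg _ _ _)

theorem cgp (hT : TMSStmt) (hK : KPSStmt) : CGPStmt := by
  intro d
  obtain ⟨C1, hC1, h1⟩ := hK d
  obtain ⟨C2, hC2, h2⟩ := (hT d).2
  refine ⟨6 + 2 * C1 + 2 * C2, by positivity, ?_⟩
  intro J F L sb e hF
  have a1 := h1 J F L sb e hF
  have a2 := h2 J F L sb e hF
  have a3 := one_le_er (J := J) hF.e0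
  simp only at a1 a2
  have hM : 0 < 2 ^ J := by positivity
  -- the closeness of `r` and `t`
  have a4 : F.eg F.r F.t ≤ C2 * er J e := by
    have n1 := F.eg_nonneg F.t F.s
    have n2 := F.eg_nonneg F.t₁ F.t
    have n3 := F.eg_nonneg F.t₁ F.s
    have n4 := F.eg_nonneg F.r F.s
    have n5 := F.eg_nonneg F.r F.t₁
    have n6 := F.eg_nonneg F.tr F.s
    have n7 := F.eg_nonneg F.ta F.s
    have n8 := F.eg_nonneg F.ta F.tr
    have n9 := F.eg_nonneg F.ta F.TO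
    linarith
  set EA := Ex F.q (fun w => Real.log (1 + |F.k₁ w|)) with hEA
  set EA' := Ex F.q (fun w => Real.log (1 + |F.k₁ w|⁻¹)) with hEA'
  set EB := Ex F.q (fun w => Real.log (1 + |F.k₂ w|)) with hEB
  set EB' := Ex F.q (fun w => Real.log (1 + |F.k₂ w|⁻¹)) with hEB'
  have p1 : 0 ≤ EA := Ex_nonneg F.hq (fun w _ => Real.log_nonneg (by
    have := abs_nonneg (F.k₁ w); linarith))
  have p2 : 0 ≤ EA' := Ex_nonneg F.hq (fun w _ => Real.log_nonneg (by
    have := inv_nonneg.mpr (abs_nonneg (F.k₁ w)); linarith))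
  have p3 : 0 ≤ EB := Ex_nonneg F.hq (fun w _ => Real.log_nonneg (by
    have := abs_nonneg (F.k₂ w); linarith))
  have p4 : 0 ≤ EB' := Ex_nonneg F.hq (fun w _ => Real.log_nonneg (by
    have := inv_nonneg.mpr (abs_nonneg (F.k₂ w)); linarith))
  -- pointwise bounds
  have b1 : ∀ w, 0 < F.q w → Real.log (1 + |(F.c w : ℝ)| / 2 ^ J) ≤
      1 + Real.log (1 + |F.k₁ w|) := by
    intro w hw
    have h := log_ct_le (M := 2 ^ J) hM (t := F.t w) (s := F.s w) (τ := F.t₁ w) (r := F.r w)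
      (F.ht w hw) (F.hr w hw)
    push_cast at h
    exact h
  have b2 : ∀ w, 0 < F.q w → Real.log (1 + 2 ^ J / max 1 |(F.c w : ℝ)|) ≤
      1 + gp J (F.r w) (F.t w) + Real.log (1 + |F.k₁ w|⁻¹) := by
    intro w hw
    have h := log_ct (M := 2 ^ J) hM (t := F.t w) (s := F.s w) (τ := F.t₁ w) (r := F.r w)
      (F.ht w hw) (F.hr w hw)
    push_cast at h
    rw [max_comm]
    have h' := ell_le_gp J (F.r w) (F.t w)
    refine h.trans ?_
    unfold Cf.k₁
    linarith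
  have b3 : ∀ w, 0 < F.q w → Real.log (1 + |(F.c₂ w : ℝ)| / 2 ^ J) ≤
      1 + Real.log (1 + |F.k₂ w|) + (1 + Real.log (1 + |F.k₁ w|)) := by
    intro w hw
    have h := log_floor_mul_le (M := 2 ^ J) hM (F.k₂ w) (F.c w)
    push_cast at h
    have h' := b1 w hw
    exact h.trans (by linarith)
  have b4 : ∀ w, 0 < F.q w → Real.log (1 + 2 ^ J / max 1 |(F.c₂ w : ℝ)|) ≤
      1 + (1 + gp J (F.r w) (F.t w) + Real.log (1 + |F.k₁ w|⁻¹)) +
        Real.log (1 + |F.k₂ w|⁻¹) := by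
    intro w hw
    have h := log_floor_mul (M := 2 ^ J) (kap_pos (F.s w) (F.tr w) (F.ta w)) (F.c w)
    push_cast at h
    rw [max_comm |(F.c w : ℝ)| 1] at h
    have h' := b2 w hw
    rw [max_comm]
    refine (le_trans (le_of_eq rfl) h).trans ?_
    unfold Cf.k₂
    linarith
  -- expectations
  have e1 : F.big F.c ≤ 1 + EA := by
    refine (Ex_mono F.hq b1).trans (le_of_eq ?_)
    rw [Ex_add, Ex_const F.h1]
  have e2 : F.sml F.c ≤ 1 + F.eg F.r F.t + EA' := by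
    refine (Ex_mono F.hq b2).trans (le_of_eq ?_)
    rw [Ex_add, Ex_add, Ex_const F.h1]
    rfl
  have e3 : F.big F.c₂ ≤ 1 + EB + (1 + EA) := by
    refine (Ex_mono F.hq b3).trans (le_of_eq ?_)
    rw [Ex_add, Ex_add, Ex_add, Ex_const F.h1]
  have e4 : F.sml F.c₂ ≤ 1 + (1 + F.eg F.r F.t + EA') + EB' := by
    refine (Ex_mono F.hq b4).trans (le_of_eq ?_)
    rw [Ex_add, Ex_add, Ex_add, Ex_add, Ex_const F.h1]
    rfl
  change F.big F.c + F.sml F.c + F.big F.c₂ + F.sml F.c₂ ≤ (6 + 2 * C1 + 2 * C2) * er J e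
  nlinarith

end Pool.KTH
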